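import Pool.Agent.K1H44.AL.Plan

set_option autoImplicit false

open Finset Filter Topology

namespace Pool.Agent.K1H74.AL

open Pool.Agent.H295R3.W Pool.Agent.K1H44.AL

theorem bd (hTB : S_TB) (V : ℕ) : ∃ D : ℝ, 0 ≤ D ∧ ∀ y ∈ Set.Ico (1 : ℝ) 2, ∀ b : ℕ,
    |T (2 ^ b * y) / (2 ^ b * y)| ≤ D / ((b : ℝ) + 1) ^ V := by
  obtain ⟨C, hC, h⟩ := hTB V
  have hl0 : 0 < Real.log 2 := Real.log_pos (by norm_num)
  refine ⟨C * (2 / Real.log 2) ^ V, by positivity, ?_⟩
  intro y hy b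
  have hp : (1 : ℝ) ≤ 2 ^ b := one_le_pow₀ one_le_two
  have hy1 : 1 ≤ y := hy.1
  have hxb : (2 : ℝ) ^ b ≤ 2 ^ b * y := le_mul_of_one_le_right (by positivity) hy1
  have hx1 : (1 : ℝ) ≤ 2 ^ b * y := hp.trans hxb
  have hx0 : (0 : ℝ) < 2 ^ b * y := by linarith
  have hl : ((b : ℝ) + 1) * Real.log 2 / 2 ≤ Real.log (2 ^ b * y + 1) := by
    have h1 : (b : ℝ) * Real.log 2 ≤ Real.log (2 ^ b * y + 1) := by
      rw [← Real.log_pow]
      exact Real.log_le_log (by positivity) (by linarith)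
    have h2 : Real.log 2 ≤ Real.log (2 ^ b * y + 1) :=
      Real.log_le_log (by norm_num) (by linarith)
    linarith
  have hb0 : 0 < ((b : ℝ) + 1) * Real.log 2 / 2 := by positivity
  have hpow : (((b : ℝ) + 1) * Real.log 2 / 2) ^ V ≤ Real.log (2 ^ b * y + 1) ^ V :=
    pow_le_pow_left₀ hb0.le hl V
  rw [abs_div, abs_of_pos hx0, div_le_iff₀ hx0]
  have h3 : C * (2 ^ b * y) / Real.log (2 ^ b * y + 1) ^ V ≤
      C * (2 ^ b * y) / (((b : ℝ) + 1) * Real.log 2 / 2) ^ V := by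
    apply div_le_div_of_nonneg_left (by positivity) (by positivity) hpow
  refine (h _ hx1).trans (h3.trans (le_of_eq ?_))
  rw [div_pow, mul_pow, div_pow]
  field_simp

theorem t_RATE : S_RATE := by
  intro hTB hS
  have hsum : ∀ y ∈ Set.Ico (1 : ℝ) 2, Summable fun b : ℕ => |T (2 ^ b * y) / (2 ^ b * y)| := by
    intro y hy
    obtain ⟨D, hD, h⟩ := bd hTB 2
    have h1 : Summable fun b : ℕ => D / ((b : ℝ) + 1) ^ 2 := by
      have h2 : Summable fun n : ℕ => 1 / ((n : ℝ)) ^ 2 :=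
        Real.summable_one_div_nat_pow.2 (by norm_num)
      have h3 := ((summable_nat_add_iff 1).2 h2).mul_left D
      refine h3.congr fun b => ?_
      push_cast
      ring
    exact Summable.of_nonneg_of_le (fun b => abs_nonneg _) (fun b => h y hy b) h1
  refine ⟨hsum, ?_⟩
  intro V
  obtain ⟨D, hD, h⟩ := bd hTB (V + 2)
  have hsq : Summable fun b : ℕ => 1 / ((b : ℝ) + 1) ^ 2 := by
    have h2 : Summable fun n : ℕ => 1 / ((n : ℝ)) ^ 2 :=
      Real.summable_one_div_nat_pow.2 (by norm_num)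
    have h3 := (summable_nat_add_iff 1).2 h2
    refine h3.congr fun b => ?_
    push_cast
    ring
  refine ⟨D * ∑' b : ℕ, 1 / ((b : ℝ) + 1) ^ 2, ?_⟩
  intro y hy N
  have hy1 : 1 ≤ y := hy.1
  have hy0 : 0 < y := by linarith
  set t : ℕ → ℝ := fun b => T (2 ^ b * y) / (2 ^ b * y) with ht
  -- the finite sum
  have hfin : S (2 ^ N * y) / (2 ^ N * y) = (-1) ^ N * ∑ b ∈ range (N + 1), (-1 : ℝ) ^ b * t b := by
    have h1 : (2 : ℝ) ^ N * y < 2 ^ (N + 1) := by
      rw [pow_succ]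
      exact mul_lt_mul_of_pos_left hy.2 (by positivity)
    rw [hS N (2 ^ N * y) (by positivity) h1, Finset.sum_div,
      ← Finset.sum_range_reflect (fun b => (-1 : ℝ) ^ b * t b), Finset.mul_sum]
    apply Finset.sum_congr rfl
    intro k hk
    have hk' : k ≤ N := by
      have := Finset.mem_range.1 hk
      omega
    obtain ⟨m, rfl⟩ := Nat.exists_eq_add_of_le hk'
    have e1 : k + m + 1 - 1 - k = m := by omega
    rw [e1]
    simp only [ht]
    have e2 : (2 : ℝ) ^ (k + m) * y / 2 ^ k = 2 ^ m * y := by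
      rw [pow_add]
      field_simp
    rw [e2]
    have e3 : (-2 : ℝ) ^ k = (-1) ^ k * 2 ^ k := by rw [← mul_pow]; norm_num
    have e4 : (-1 : ℝ) ^ (k + m) * (-1) ^ m = (-1) ^ k := by
      rw [pow_add, mul_assoc, ← pow_add, ← two_mul, pow_mul]
      norm_num
    rw [← mul_assoc, e4, e3, pow_add]
    field_simp
  have hs : Summable fun b : ℕ => (-1 : ℝ) ^ b * t b := by
    apply Summable.of_norm
    refine (hsum y hy).congr fun b => ?_
    rw [norm_mul, norm_pow, norm_neg, norm_one, one_pow, one_mul, Real.norm_eq_abs]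
  have hG : G y = ∑' b : ℕ, (-1 : ℝ) ^ b * t b := rfl
  have hsplit := hs.sum_add_tsum_nat_add (N + 1)
  have hdiff : S (2 ^ N * y) / (2 ^ N * y) - (-1) ^ N * G y =
      -((-1) ^ N * ∑' b : ℕ, (-1 : ℝ) ^ (b + (N + 1)) * t (b + (N + 1))) := by
    rw [hfin, hG, ← hsplit]
    ring
  rw [hdiff, abs_neg, abs_mul, abs_pow, abs_neg, abs_one, one_pow, one_mul, ← Real.norm_eq_abs]
  have hbound : ∀ b : ℕ, ‖(-1 : ℝ) ^ (b + (N + 1)) * t (b + (N + 1))‖ ≤
      D / ((N : ℝ) + 1) ^ V * (1 / ((b : ℝ) + 1) ^ 2) := by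
    intro b
    rw [norm_mul, norm_pow, norm_neg, norm_one, one_pow, one_mul, Real.norm_eq_abs]
    refine (h y hy (b + (N + 1))).trans ?_
    rw [div_mul_div_comm, mul_one]
    apply div_le_div_of_nonneg_left hD (by positivity)
    rw [pow_add]
    apply mul_le_mul
    · apply pow_le_pow_left₀ (by positivity)
      push_cast
      have : (0 : ℝ) ≤ b := by positivity
      linarith
    · apply pow_le_pow_left₀ (by positivity)
      push_cast
      have : (0 : ℝ) ≤ N := by positivity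
      linarith
    · positivity
    · positivity
  refine (tsum_of_norm_bounded ((hsq.mul_left (D / ((N : ℝ) + 1) ^ V)).hasSum) hbound).trans ?_
  rw [tsum_mul_left]
  apply le_of_eq
  ring

end Pool.Agent.K1H74.AL
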